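import Mathlib

/-!
Counting lemmas for the divisibility obstruction to the block sets conjecture.

`α` is the set of `2p-1` varying blocks, `blk i` is the block of position `i` (if any),
`f` is the template letter of a block, `bg` the letters at the other positions.
-/

open Finset

namespace Pool.Agent.MP_5949aa_co

variable {α Λ : Type*} [Fintype α] [DecidableEq α] [DecidableEq Λ] {n p : ℕ}

/-- The word obtained from the permutation `σ` of the blocks. -/
def word (blk : Fin n → Option α) (bg : Fin n → Λ) (f : α → Λ) (σ : Equiv.Perm α) :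
    Fin n → Λ :=
  fun i => (blk i).elim (bg i) (fun j => f (σ j))

/-- The occurrences of the pattern `u` in the word `w`. -/
def occ (u : Fin p → Λ) (w : Fin n → Λ) : Finset (Fin p → Fin n) :=
  univ.filter fun g => StrictMono g ∧ ∀ s, w (g s) = u s

/-- The tuples of positions lying in distinct blocks. -/
noncomputable def tuples (blk : Fin n → Option α) (p : ℕ) : Finset (Fin p → Fin n) :=
  univ.filter fun g => ∃ j : Fin p ↪ α, ∀ s, blk (g s) = some (j s)

lemma mem_tuples {blk : Fin n → Option α} {g : Fin p → Fin n} :
    g ∈ tuples blk p ↔ ∃ j : Fin p ↪ α, ∀ s, blk (g s) = some (j s) := by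
  simp [tuples]

lemma card_tuples (blk : Fin n → Option α) (d : ℕ)
    (hd : ∀ a : α, (univ.filter fun i => blk i = some a).card = d) :
    (tuples blk p).card = (Fintype.card α).descFactorial p * d ^ p := by
  have h : tuples blk p = (univ : Finset (Fin p ↪ α)).biUnion
      (fun j => Fintype.piFinset fun s => univ.filter fun i => blk i = some (j s)) := by
    ext g
    simp [tuples, Fintype.mem_piFinset]
  rw [h, card_biUnion]
  · simp only [Fintype.card_piFinset, hd, prod_const, card_univ, Fintype.card_fin, sum_const,
      Fintype.card_embedding_eq, smul_eq_mul]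
  · intro j _ j' _ hne
    rw [Function.onFun, disjoint_left]
    intro g hg hg'
    rw [Fintype.mem_piFinset] at hg hg'
    apply hne
    ext s
    have h1 := (mem_filter.mp (hg s)).2
    have h2 := (mem_filter.mp (hg' s)).2
    rw [h1] at h2
    exact Option.some.inj h2

lemma card_strictMono_tuples (blk : Fin n → Option α) :
    ((tuples blk p).filter fun g => StrictMono g).card * p.factorial = (tuples blk p).card := by
  have hp : p.factorial = (univ : Finset (Equiv.Perm (Fin p))).card := by
    rw [card_univ, Fintype.card_perm, Fintype.card_fin]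
  rw [hp, ← card_product]
  refine card_bij (fun x _ => x.1 ∘ x.2) ?_ ?_ ?_
  · rintro ⟨g, π⟩ hx
    simp only [mem_product, mem_filter, mem_univ, and_true] at hx
    obtain ⟨j, hj⟩ := mem_tuples.mp hx.1
    exact mem_tuples.mpr ⟨π.toEmbedding.trans j, fun s => hj (π s)⟩
  · rintro ⟨g, π⟩ hx ⟨g', π'⟩ hx' heq
    simp only [mem_product, mem_filter, mem_univ, and_true] at hx hx'
    simp only at heq
    have hr : Set.range g = Set.range g' := by
      have h1 := congrArg Set.range heq
      rwa [π.surjective.range_comp, π'.surjective.range_comp] at h1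
    have hgg : g = g' := (hx.2.range_inj hx'.2).mp hr
    subst hgg
    have : π = π' := by
      ext s
      have := congrFun heq s
      exact congrArg _ (hx.2.injective this)
    rw [this]
  · intro g hg
    obtain ⟨j, hj⟩ := mem_tuples.mp hg
    have hinj : Function.Injective g := by
      intro s t hst
      have h1 := hj s
      rw [hst, hj t] at h1
      exact j.injective (Option.some.inj h1.symm)
    refine ⟨(g ∘ Tuple.sort g, (Tuple.sort g)⁻¹), ?_, ?_⟩
    · simp only [mem_product, mem_filter, mem_univ, and_true]
      refine ⟨mem_tuples.mpr ⟨(Tuple.sort g).toEmbedding.trans j, fun s => hj _⟩, ?_⟩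
      exact (Tuple.monotone_sort g).strictMono_of_injective
        (hinj.comp (Tuple.sort g).injective)
    · funext s
      simp

/-- If fewer than `p` blocks are hit by `g`, the number of permutations `σ` for which `g` is an
occurrence is divisible by `p`. -/
lemma dvd_card_of_notMem (hp : p.Prime) (blk : Fin n → Option α) (bg : Fin n → Λ) (f : α → Λ)
    (u : Fin p → Λ) (hcard : Fintype.card α = 2 * p - 1) (g : Fin p → Fin n)
    (hg : g ∉ tuples blk p) :
    p ∣ (univ.filter fun σ : Equiv.Perm α => ∀ s, word blk bg f σ (g s) = u s).card := by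
  classical
  have : Fact p.Prime := ⟨hp⟩
  -- the blocks that are hit
  set R : Finset α := univ.filter (fun a => ∃ s, blk (g s) = some a) with hR
  have hRp : R.card < p := by
    by_contra hge
    push Not at hge
    apply hg
    -- choose a preimage of each hit block: all `s` are used
    have hch : ∀ a : R, ∃ s, blk (g s) = some a.1 := fun a => (mem_filter.mp a.2).2
    choose t ht using hch
    have htinj : Function.Injective t := by
      intro a b hab
      have h1 := ht a
      rw [hab, ht b] at h1
      exact Subtype.ext (Option.some.inj h1.symm)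
    have hRcard : Fintype.card R = p := by
      apply le_antisymm
      · have := Fintype.card_le_of_injective t htinj
        rwa [Fintype.card_fin] at this
      · rwa [Fintype.card_coe]
    have htbij : Function.Bijective t := by
      rw [Fintype.bijective_iff_injective_and_card]
      exact ⟨htinj, by rw [hRcard, Fintype.card_fin]⟩
    let e := Equiv.ofBijective t htbij
    refine mem_tuples.mpr ⟨e.symm.toEmbedding.trans (Function.Embedding.subtype _), fun s => ?_⟩
    have h1 := ht (e.symm s)
    have h2 : t (e.symm s) = s := e.apply_symm_apply s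
    rw [h2] at h1
    exact h1
  -- an element of order p moving only blocks that are not hit
  have hdvd : p ∣ Fintype.card (Equiv.Perm {a // a ∉ R}) := by
    rw [Fintype.card_perm]
    refine hp.dvd_factorial.mpr ?_
    have : Fintype.card {a // a ∉ R} = Fintype.card α - R.card := by
      rw [Fintype.card_subtype_compl]
      simp
    rw [this, hcard]
    omega
  obtain ⟨x, hx⟩ := exists_prime_orderOf_dvd_card p hdvd
  set π : Equiv.Perm α := Equiv.Perm.ofSubtype x with hπ
  have hπp : π ^ p = 1 := by
    rw [hπ, ← map_pow, ← hx, pow_orderOf_eq_one, map_one]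
  have hπ1 : π ≠ 1 := by
    intro h1
    have hx1 : x = 1 := by
      apply Equiv.Perm.ofSubtype_injective
      rw [← hπ, h1, map_one]
    rw [hx1, orderOf_one] at hx
    exact hp.one_lt.ne hx
  have hfix : ∀ a ∈ R, π a = a := by
    intro a ha
    exact Equiv.Perm.ofSubtype_apply_of_not_mem x (by simpa using ha)
  have hstab : ∀ σ : Equiv.Perm α, (∀ s, word blk bg f σ (g s) = u s) →
      ∀ s, word blk bg f (σ * π) (g s) = u s := by
    intro σ hσ s
    rw [← hσ s]
    simp only [word]
    cases hb : blk (g s) with
    | none => rfl
    | some a =>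
      have ha : a ∈ R := mem_filter.mpr ⟨mem_univ _, s, hb⟩
      simp [hfix a ha]
  let Z := {σ : Equiv.Perm α // ∀ s, word blk bg f σ (g s) = u s}
  let F : Function.End Z := fun σ => ⟨σ.1 * π, hstab σ.1 σ.2⟩
  have hFk : ∀ k : ℕ, ∀ σ : Z, ((F ^ k) σ).1 = σ.1 * π ^ k := by
    intro k
    induction k with
    | zero => intro σ; rw [pow_zero, pow_zero, mul_one]; rfl
    | succ k ih =>
      intro σ
      rw [pow_succ]
      change ((F ^ k) (F σ)).1 = _
      rw [ih, pow_succ']
      simp [F, mul_assoc]
  have hFp : F ^ p ^ 1 = 1 := by
    funext σ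
    apply Subtype.ext
    rw [pow_one, hFk, hπp, mul_one]
    rfl
  have hmod := Equiv.Perm.card_fixedPoints_modEq (p := p) (n := 1) hFp
  have hempty : Fintype.card (Function.fixedPoints F) = 0 := by
    rw [Fintype.card_eq_zero_iff]
    refine ⟨fun σ => ?_⟩
    have h1 : F σ.1 = σ.1 := σ.2
    have h2 : σ.1.1 * π = σ.1.1 := congrArg Subtype.val h1
    exact hπ1 (mul_eq_left.mp h2)
  rw [hempty] at hmod
  have h3 : p ∣ Fintype.card Z := (Nat.modEq_zero_iff_dvd).mp hmod
  rwa [Fintype.card_subtype] at h3

/-- The number of permutations for which a tuple of positions in distinct blocks is an occurrence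
does not depend on the tuple. -/
lemma card_of_mem (blk : Fin n → Option α) (bg : Fin n → Λ) (f : α → Λ)
    (u : Fin p → Λ) (J : Fin p ↪ α) (g : Fin p → Fin n) (hg : g ∈ tuples blk p) :
    (univ.filter fun σ : Equiv.Perm α => ∀ s, word blk bg f σ (g s) = u s).card =
      (univ.filter fun σ : Equiv.Perm α => ∀ s, f (σ (J s)) = u s).card := by
  obtain ⟨j, hj⟩ := mem_tuples.mp hg
  have := (Equiv.Perm.isMultiplyPretransitive α p)
  obtain ⟨π, hπ⟩ := MulAction.exists_smul_eq (Equiv.Perm α) J j
  have hπ' : ∀ s, π (J s) = j s := fun s => by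
    rw [← hπ]; rfl
  refine card_bij (fun σ _ => σ * π) ?_ ?_ ?_
  · intro σ hσ
    simp only [mem_filter, mem_univ, true_and] at hσ ⊢
    intro s
    have := hσ s
    simp only [word, hj s, Option.elim_some] at this
    simp [hπ' s, this]
  · intro σ _ σ' _ h
    exact mul_right_cancel h
  · intro σ hσ
    simp only [mem_filter, mem_univ, true_and] at hσ
    refine ⟨σ * π⁻¹, ?_, by simp⟩
    simp only [mem_filter, mem_univ, true_and]
    intro s
    simp only [word, hj s, Option.elim_some]
    rw [← hσ s, ← hπ' s]
    simp

/-- The number of permutations preserving the letters of the pattern is prime to `p`. -/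
lemma not_dvd_card_stab (hp : p.Prime) (f : α → Λ) (hcard : Fintype.card α = 2 * p - 1)
    (J : Fin p ↪ α) (hsep : ∀ a, a ∉ Set.range J → ∀ s, f a ≠ f (J s))
    (hnc : ∃ s t, f (J s) ≠ f (J t)) :
    ¬ p ∣ (univ.filter fun σ : Equiv.Perm α => ∀ s, f (σ (J s)) = f (J s)).card := by
  classical
  -- forget the letters outside the pattern
  let F : α → Option Λ := fun a => if a ∈ Set.range J then some (f a) else none
  have hJcard : (univ.filter fun a => a ∈ Set.range J).card = p := by
    have h : (univ.filter fun a => a ∈ Set.range J) = univ.map J := by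
      ext a; simp
    rw [h, card_map, card_univ, Fintype.card_fin]
  have hiff : ∀ σ : Equiv.Perm α, (∀ s, f (σ (J s)) = f (J s)) ↔ F ∘ σ = F := by
    intro σ
    constructor
    · intro h
      have hmaps : ∀ s, σ (J s) ∈ Set.range J := by
        intro s
        by_contra hcon
        exact hsep _ hcon s (h s)
      have himg : (univ.filter fun a => a ∈ Set.range J).map σ.toEmbedding =
          univ.filter fun a => a ∈ Set.range J := by
        apply eq_of_subset_of_card_le
        · intro a ha
          rw [mem_map] at ha
          obtain ⟨b, hb, rfl⟩ := ha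
          obtain ⟨s, rfl⟩ := (mem_filter.mp hb).2
          exact mem_filter.mpr ⟨mem_univ _, hmaps s⟩
        · rw [card_map]
      funext a
      simp only [F, Function.comp]
      by_cases ha : a ∈ Set.range J
      · obtain ⟨s, rfl⟩ := ha
        rw [if_pos (hmaps s), if_pos ⟨s, rfl⟩, h s]
      · have hσa : σ a ∉ Set.range J := by
          intro hcon
          have : σ a ∈ (univ.filter fun a => a ∈ Set.range J).map σ.toEmbedding := by
            rw [himg]; exact mem_filter.mpr ⟨mem_univ _, hcon⟩
          rw [mem_map] at this
          obtain ⟨b, hb, hba⟩ := this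
          have : b = a := σ.injective hba
          rw [this] at hb
          exact ha (mem_filter.mp hb).2
        rw [if_neg hσa, if_neg ha]
    · intro h s
      have h1 := congrFun h (J s)
      simp only [F, Function.comp, Set.mem_range_self, if_true] at h1
      split_ifs at h1 with h2
      exact Option.some.inj h1
  simp only [hiff]
  rw [← Fintype.card_subtype, DomMulAct.stabilizer_card' F, Prime.dvd_finsetProd_iff hp.prime]
  rintro ⟨i, -, hi⟩
  rw [hp.dvd_factorial, Fintype.card_subtype] at hi
  apply absurd hi
  push Not
  cases i with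
  | none =>
    have h1 : (univ.filter fun a => F a = none) = (univ.filter fun a => a ∈ Set.range J)ᶜ := by
      ext a
      simp only [mem_filter, mem_univ, true_and, mem_compl, F]
      split_ifs with h <;> simp [h]
    rw [h1, card_compl, hJcard, hcard]
    have := hp.pos
    omega
  | some x =>
    have h1 : (univ.filter fun a => F a = some x) ⊂ (univ.filter fun a => a ∈ Set.range J) := by
      rw [ssubset_iff_of_subset]
      · obtain ⟨s, t, hst⟩ := hnc
        by_cases hs : f (J s) = x
        · refine ⟨J t, by simp, ?_⟩
          simp only [mem_filter, mem_univ, true_and, F, Set.mem_range_self, if_true]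
          intro hcon
          exact hst (hs.trans (Option.some.inj hcon).symm)
        · refine ⟨J s, by simp, ?_⟩
          simp only [mem_filter, mem_univ, true_and, F, Set.mem_range_self, if_true]
          intro hcon
          exact hs (Option.some.inj hcon)
      · intro a ha
        simp only [mem_filter, mem_univ, true_and, F] at ha ⊢
        split_ifs at ha with h
        exact h
    have := card_lt_card h1
    rwa [hJcard] at this

/-- The main counting statement: the number of occurrences of the pattern, modulo `p`, cannot be
constant on the words obtained by permuting the `2p-1` blocks, unless `p ∣ d`. -/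
theorem dvd_of_occ_const (hp : p.Prime) (blk : Fin n → Option α) (bg : Fin n → Λ) (f : α → Λ)
    (hcard : Fintype.card α = 2 * p - 1) (J : Fin p ↪ α)
    (hsep : ∀ a, a ∉ Set.range J → ∀ s, f a ≠ f (J s))
    (hnc : ∃ s t, f (J s) ≠ f (J t)) (d : ℕ)
    (hd : ∀ a : α, (univ.filter fun i => blk i = some a).card = d) (κ : ℕ)
    (hκ : ∀ σ : Equiv.Perm α, (occ (fun s => f (J s)) (word blk bg f σ)).card ≡ κ [MOD p]) :
    p ∣ d := by
  classical
  set u : Fin p → Λ := fun s => f (J s) with hu
  set N : ℕ := (univ.filter fun σ : Equiv.Perm α => ∀ s, f (σ (J s)) = u s).card with hN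
  set X := (tuples blk p).filter fun g => StrictMono g with hX
  -- double counting
  have hsum : ∑ σ : Equiv.Perm α, (occ u (word blk bg f σ)).card =
      ∑ g ∈ univ.filter (fun g : Fin p → Fin n => StrictMono g),
        (univ.filter fun σ : Equiv.Perm α => ∀ s, word blk bg f σ (g s) = u s).card := by
    simp only [occ, card_filter, ← filter_filter]
    rw [sum_comm]
  have h1 : ∑ σ : Equiv.Perm α, (occ u (word blk bg f σ)).card ≡ 0 [MOD p] := by
    have h2 : ∑ σ : Equiv.Perm α, (occ u (word blk bg f σ)).card ≡
        ∑ _σ : Equiv.Perm α, κ [MOD p] := by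
      rw [← ZMod.natCast_eq_natCast_iff]
      push_cast
      exact sum_congr rfl fun σ _ => (ZMod.natCast_eq_natCast_iff _ _ _).mpr (hκ σ)
    refine h2.trans ?_
    rw [sum_const, card_univ, Fintype.card_perm, hcard, smul_eq_mul]
    refine (Nat.modEq_zero_iff_dvd).mpr (Dvd.dvd.mul_right (hp.dvd_factorial.mpr ?_) _)
    have := hp.two_le
    omega
  have h3 : ∑ g ∈ univ.filter (fun g : Fin p → Fin n => StrictMono g),
        (univ.filter fun σ : Equiv.Perm α => ∀ s, word blk bg f σ (g s) = u s).card ≡
      X.card * N [MOD p] := by
    rw [← ZMod.natCast_eq_natCast_iff, ← sum_filter_add_sum_filter_not _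
      (fun g => g ∈ tuples blk p)]
    have ha : ∑ g ∈ (univ.filter (fun g : Fin p → Fin n => StrictMono g)).filter
        (fun g => g ∈ tuples blk p),
        (univ.filter fun σ : Equiv.Perm α => ∀ s, word blk bg f σ (g s) = u s).card =
        X.card * N := by
      rw [sum_congr rfl (fun g hg => card_of_mem blk bg f u J g (mem_filter.mp hg).2),
        sum_const, smul_eq_mul]
      congr 2
      ext g
      simp only [hX, mem_filter, mem_univ, true_and, and_comm]
    have hb : ((∑ g ∈ (univ.filter (fun g : Fin p → Fin n => StrictMono g)).filter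
        (fun g => g ∉ tuples blk p),
        (univ.filter fun σ : Equiv.Perm α => ∀ s, word blk bg f σ (g s) = u s).card : ℕ) :
          ZMod p) = 0 := by
      push_cast
      refine sum_eq_zero fun g hg => ?_
      rw [ZMod.natCast_eq_zero_iff]
      exact dvd_card_of_notMem hp blk bg f u hcard g (mem_filter.mp hg).2
    rw [Nat.cast_add, ha, hb, add_zero]
  have h4 : p ∣ X.card * N := by
    rw [hsum] at h1
    exact (Nat.modEq_zero_iff_dvd).mp (h3.symm.trans h1)
  have h5 : p ∣ X.card :=
    (hp.dvd_mul.mp h4).resolve_right (not_dvd_card_stab hp f hcard J hsep hnc)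
  -- the number of increasing tuples
  have h6 : X.card * (p - 1).factorial =
      (∏ i ∈ range (p - 1), (2 * p - 1 - i)) * d ^ p := by
    have h7 : X.card * p.factorial = (tuples blk p).card := card_strictMono_tuples blk
    rw [card_tuples blk d hd, hcard, Nat.descFactorial_eq_prod_range] at h7
    obtain ⟨q, rfl⟩ : ∃ q, p = q + 1 := ⟨p - 1, by have := hp.pos; omega⟩
    rw [prod_range_succ, Nat.factorial_succ] at h7
    have h8 : 2 * (q + 1) - 1 - q = q + 1 := by omega
    rw [h8] at h7
    simp only [Nat.add_sub_cancel]
    have hq : 0 < q + 1 := by omega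
    refine Nat.eq_of_mul_eq_mul_left hq ?_
    calc (q + 1) * (X.card * q.factorial) = X.card * ((q + 1) * q.factorial) := by ring
      _ = _ := h7
      _ = _ := by ring
  have h9 : p ∣ (∏ i ∈ range (p - 1), (2 * p - 1 - i)) * d ^ p := h6 ▸ h5.mul_right _
  rcases hp.dvd_mul.mp h9 with h10 | h10
  · exfalso
    rw [Prime.dvd_finsetProd_iff hp.prime] at h10
    obtain ⟨i, hi, hdvd⟩ := h10
    rw [mem_range] at hi
    have h11 : p ∣ 2 * p - (2 * p - 1 - i) := Nat.dvd_sub (Dvd.intro_left _ rfl) hdvd
    have h12 : 2 * p - (2 * p - 1 - i) = i + 1 := by omega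
    rw [h12] at h11
    have := Nat.le_of_dvd (Nat.succ_pos i) h11
    omega
  · exact hp.dvd_of_dvd_pow h10

end Pool.Agent.MP_5949aa_co
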